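import Pool.Agent.R56.Halin

/-! # Every cubic Halin graph of order at least 6 is 2-tone 6-colourable -/

namespace Pool.Agent.Results.MP_fbe6c8_co.SixColours

open HalinTwoTone

/-- `H` is a Halin graph: there is a tree `T` on the vertex set of `H`, with a plane embedding
given by the cyclic order `rot v` of the neighbours of each vertex `v`, such that `T` has no vertex
of degree `2` and at least three leaves, and `H` consists of `T` and of the cycle through the
leaves in the cyclic order of the embedding, that is, `x` and `y` are joined by an edge of `H`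
outside `T` if one of them is the leaf that follows the other one on the boundary walk of `T`. -/
def IsHalin {V : Type*} (H : SimpleGraph V) : Prop :=
  ∃ (T : SimpleGraph V) (rot : V → Equiv.Perm V),
    T.IsTree ∧ (∀ v, (rot v).IsCycleOn (T.neighborSet v)) ∧
    (∀ v, (T.neighborSet v).ncard ≠ 2) ∧ 3 ≤ {x | IsLeaf T x}.ncard ∧
    ∀ x y, H.Adj x y ↔ T.Adj x y ∨ Next T rot x y ∨ Next T rot y x

/-- Every cubic Halin graph of order at least `6` is 2-tone 6-colourable. -/
theorem result {V : Type*} [Finite V] (H : SimpleGraph V) (hH : IsHalin H)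
    (hcubic : ∀ v, (H.neighborSet v).ncard = 3) (hn : 6 ≤ Nat.card V) :
    ToneColorable H 2 6 := by
  classical
  obtain ⟨T, rot, hT, hcyc, hdeg, _, hadj⟩ := hH
  have hnt : Nontrivial V := by
    have : Fintype V := Fintype.ofFinite V
    rw [← Fintype.one_lt_card_iff_nontrivial, ← Nat.card_eq_fintype_card]
    omega
  have hC : Cub T rot := by
    refine ⟨hT, hcyc, fun v hv => ?_⟩
    have hle : (T.neighborSet v).ncard ≤ 3 := by
      rw [← hcubic v]
      refine Set.ncard_le_ncard ?_ (Set.toFinite _)
      intro x hx
      exact (hadj v x).2 (Or.inl hx)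
    have hpos : 0 < (T.neighborSet v).ncard := by
      rw [Set.ncard_pos (Set.toFinite _)]
      obtain ⟨w, hw⟩ := exists_ne v
      obtain ⟨p⟩ := hT.1.preconnected v w
      cases p with
      | nil => exact absurd rfl hw
      | cons h _ => exact ⟨_, h⟩
    have h1 : (T.neighborSet v).ncard ≠ 1 := by
      intro h
      obtain ⟨y, hy⟩ := Set.ncard_eq_one.1 h
      apply hv
      refine ⟨y, ?_, fun z hz => ?_⟩
      · have : y ∈ T.neighborSet v := by rw [hy]; exact Set.mem_singleton y
        exact this
      · have : z ∈ T.neighborSet v := hz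
        rw [hy] at this
        exact this
    have h2 := hdeg v
    omega
  obtain ⟨u, v, huv, hu, hv⟩ := hC.exists_inner_edge hn
  obtain ⟨f, hf⟩ := hC.colour hadj huv hu hv
  exact tone_of_local hf

end Pool.Agent.Results.MP_fbe6c8_co.SixColours
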